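import Pool.Agent.Q170.WD.St

set_option autoImplicit false

/-!
# Project WD, job ORB: orbits (helper121)
-/

namespace Pool.Agent.Q121.WD

open MvPolynomial Pool.Agent.Q170.WD

variable {K : Type} [Field K] {N : ℕ}

/-- the ideal of the polynomials which vanish along a progression -/
noncomputable def J (x : ℕ → Fin N → K) (a g : ℕ) : Ideal (MvPolynomial (Fin N) K) :=
  ⨅ j : ℕ, RingHom.ker (MvPolynomial.eval (x (a + g * j)))

theorem mem_J {x : ℕ → Fin N → K} {a g : ℕ} {f : MvPolynomial (Fin N) K} :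
    f ∈ J x a g ↔ ∀ j, MvPolynomial.eval (x (a + g * j)) f = 0 := by
  unfold J
  rw [Submodule.mem_iInf]
  exact forall_congr' fun j => RingHom.mem_ker

theorem exists_pull {Φ : Fin N → MvPolynomial (Fin N) K} {x : ℕ → Fin N → K}
    (hx : ∀ n i, x (n + 1) i = MvPolynomial.eval (x n) (Φ i)) (i : ℕ) (f : MvPolynomial (Fin N) K) :
    ∃ F : MvPolynomial (Fin N) K, ∀ n, MvPolynomial.eval (x n) F = MvPolynomial.eval (x (n + i)) f := by
  induction i with
  | zero => exact ⟨f, fun n => rfl⟩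
  | succ i ih =>
    obtain ⟨F, hF⟩ := ih
    refine ⟨bind₁ Φ F, fun n => ?_⟩
    have h1 : MvPolynomial.eval (x n) (bind₁ Φ F) =
        MvPolynomial.eval (fun i => MvPolynomial.eval (x n) (Φ i)) F :=
      MvPolynomial.eval₂Hom_bind₁ (RingHom.id K) (x n) Φ F
    have h2 : (fun i => MvPolynomial.eval (x n) (Φ i)) = x (n + 1) := funext fun i => (hx n i).symm
    rw [h1, h2, hF, show n + 1 + i = n + (i + 1) by omega]

theorem t_ORB : S_ORB := by
  intro K _ N Φ I x hx
  obtain ⟨J0, ⟨⟨a, g0⟩, hg0, rfl⟩, hmax⟩ := set_has_maximal_iff_noetherian.2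
    (inferInstance : IsNoetherian (MvPolynomial (Fin N) K) (MvPolynomial (Fin N) K))
    ((fun z : ℕ × ℕ => J x z.1 z.2) '' {z | 1 ≤ z.2}) ⟨J x 0 1, (0, 1), (le_rfl : 1 ≤ 1), rfl⟩
  have hg0' : 1 ≤ g0 := hg0
  refine ⟨g0, a, hg0', fun r _ => ?_⟩
  by_contra hcon
  push Not at hcon
  obtain ⟨⟨n', hn', hr', hbad⟩, n, g, hn, hr, hg, hall⟩ := hcon
  apply hbad
  intro f hf
  obtain ⟨i, hi⟩ : ∃ i, i = (n - a) % g0 := ⟨_, rfl⟩
  obtain ⟨k, hk⟩ : ∃ k, k = (n - a) / g0 := ⟨_, rfl⟩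
  have e1 : n = a + g0 * k + i := by
    have := Nat.div_add_mod (n - a) g0
    rw [← hi, ← hk] at this
    omega
  have hmod : n' ≡ n [MOD g0] := by
    show n' % g0 = n % g0
    rw [hr, hr']
  have e2 : (n' - a) % g0 = i := by
    rw [hi]
    have h1 : (n' - a) + a ≡ (n - a) + a [MOD g0] := by
      rw [Nat.sub_add_cancel hn', Nat.sub_add_cancel hn]
      exact hmod
    exact Nat.ModEq.add_right_cancel' a h1
  have e3 : n' = a + g0 * ((n' - a) / g0) + i := by
    have := Nat.div_add_mod (n' - a) g0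
    rw [e2] at this
    omega
  obtain ⟨F, hF⟩ := exists_pull hx i f
  have h1 : F ∈ J x (a + g0 * k) (g0 * g) := by
    rw [mem_J]
    intro j
    rw [hF, show a + g0 * k + g0 * g * j + i = n + g * (g0 * j) by rw [e1]; ring]
    exact hall _ f hf
  have h2 : J x a g0 ≤ J x (a + g0 * k) (g0 * g) := by
    intro G hG
    rw [mem_J] at hG ⊢
    intro j
    rw [show a + g0 * k + g0 * g * j = a + g0 * (k + g * j) by ring]
    exact hG _
  have h3 : J x a g0 = J x (a + g0 * k) (g0 * g) := by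
    by_contra hne
    exact hmax (J x (a + g0 * k) (g0 * g)) ⟨(a + g0 * k, g0 * g), Nat.mul_pos hg0' hg, rfl⟩
      (lt_of_le_of_ne h2 hne)
  rw [← h3, mem_J] at h1
  have h4 := h1 ((n' - a) / g0)
  rw [hF, ← e3] at h4
  exact h4

end Pool.Agent.Q121.WD
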